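import Mathlib.Algebra.Group.Subgroup.Lattice
import Mathlib.SetTheory.Cardinal.Finite

namespace Pool.Agent.MP_0de6ea_al

/-- A marked `d`-generated group: a group with an ordered generating `d`-tuple. -/
structure Marked (d : ℕ) where
  G : Type
  [grp : Group G]
  s : Fin d → G
  gen : Subgroup.closure (Set.range s) = ⊤

attribute [instance] Marked.grp

/-- The elements of word length at most `n`: products of at most `n` generators or inverses. -/
def Marked.ball {d : ℕ} (M : Marked d) (n : ℕ) : Set M.G :=
  {g | ∃ l : List (Fin d × Bool), l.length ≤ n ∧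
    (l.map fun x => if x.2 then M.s x.1 else (M.s x.1)⁻¹).prod = g}

/-- The marked balls of radius `n` are isomorphic: a bijection of the balls that matches the
roots and the directed labelled edges `g → g * s i` of the induced subgraphs. -/
def BallIso {d : ℕ} (n : ℕ) (M M' : Marked d) : Prop :=
  ∃ e : M.ball n ≃ M'.ball n,
    (∀ x : M.ball n, (x : M.G) = 1 ↔ (e x : M'.G) = 1) ∧
    ∀ (x y : M.ball n) (i : Fin d),
      (y : M.G) = (x : M.G) * M.s i ↔ (e y : M'.G) = (e x : M'.G) * M'.s i

/-- Number of isomorphism classes of marked balls of radius `n` of marked `d`-generated groups. -/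
noncomputable def fCount (d n : ℕ) : ℕ :=
  Nat.card (Quot (fun M M' : Marked d => BallIso n M M'))

/-- The same count for finite marked `d`-generated groups. -/
noncomputable def gCount (d n : ℕ) : ℕ :=
  Nat.card (Quot (fun M M' : {M : Marked d // Finite M.G} => BallIso n M.1 M'.1))

end Pool.Agent.MP_0de6ea_al
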