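import Mathlib.Tactic.Abel
import Mathlib.Tactic.Linarith.Frontend
import Mathlib.Algebra.Algebra.Basic
import Mathlib.Data.Matrix.Mul
import Mathlib.GroupTheory.GroupAction.Ring
import Mathlib.Data.ZMod.Basic
import Mathlib.Data.Int.Interval
import Mathlib.Logic.Equiv.Fintype
import Mathlib.Tactic.Group
import Mathlib.Tactic.LinearCombination
import Mathlib.GroupTheory.FreeGroup.Reduce
import Mathlib.Data.Int.ConditionallyCompleteOrder
import Mathlib.Data.Int.Star
import Mathlib.Algebra.Order.Ring.Star
import Mathlib.Data.List.Triplewise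
import Mathlib.Data.List.Lookmap
import Mathlib.Data.Set.Finite.List

-- ======== part 0: formerly Pool.Agent.MP_0de6ea_al.Words
section MrgPart0

namespace Pool.Agent.MP_0de6ea_al

open FreeGroup

section Count
variable {α : Type} [Fintype α] [DecidableEq α]

/-- reduced words of length `L` -/
noncomputable def red (α : Type) [Fintype α] [DecidableEq α] : ℕ → Finset (List (α × Bool))
  | 0 => {[]}
  | L + 1 => by
      classical
      exact (red α L).biUnion fun w =>
        (Finset.univ.filter fun l : α × Bool => IsReduced (l :: w)).image (· :: w)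

theorem mem_red {L : ℕ} {w : List (α × Bool)} : w ∈ red α L ↔ w.length = L ∧ IsReduced w := by
  induction L generalizing w with
  | zero =>
    simp only [red, Finset.mem_singleton, List.length_eq_zero_iff]
    constructor
    · rintro rfl; exact ⟨rfl, IsReduced.nil⟩
    · exact fun h => h.1
  | succ L ih =>
    simp only [red, Finset.mem_biUnion, Finset.mem_image, Finset.mem_filter, Finset.mem_univ,
      true_and]
    constructor
    · rintro ⟨u, hu, l, hl, rfl⟩
      exact ⟨by simp [(ih.1 hu).1], hl⟩
    · rintro ⟨h1, h2⟩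
      cases w with
      | nil => simp at h1
      | cons l u =>
        refine ⟨u, ih.2 ⟨by simpa using h1, List.IsChain.tail h2⟩, l, h2, rfl⟩

open Classical in
theorem card_ext (w : List (α × Bool)) (hw : IsReduced w) :
    (Finset.univ.filter fun l : α × Bool => IsReduced (l :: w)).card =
      if w = [] then 2 * Fintype.card α else 2 * Fintype.card α - 1 := by
  cases w with
  | nil =>
    simp [IsReduced.singleton, Finset.card_univ, mul_comm]
  | cons m u =>
    have : (Finset.univ.filter fun l : α × Bool => IsReduced (l :: m :: u)) =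
        Finset.univ.erase (m.1, !m.2) := by
      ext ⟨x, y⟩
      obtain ⟨m1, m2⟩ := m
      simp only [Finset.mem_filter, Finset.mem_univ, true_and, Finset.mem_erase, and_true,
        isReduced_cons_cons, hw, ne_eq, Prod.mk.injEq]
      cases y <;> cases m2 <;> simp
    rw [this, Finset.card_erase_of_mem (Finset.mem_univ _)]
    simp [Finset.card_univ, mul_comm]

theorem card_red_succ (L : ℕ) : (red α (L + 1)).card =
    ∑ w ∈ red α L, if w = [] then 2 * Fintype.card α else 2 * Fintype.card α - 1 := by
  classical
  simp only [red]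
  rw [Finset.card_biUnion]
  · refine Finset.sum_congr rfl fun w hw => ?_
    rw [Finset.card_image_of_injective _ (fun a b h => (List.cons.inj h).1)]
    convert card_ext w (mem_red.1 hw).2
  · intro w _ w' _ hne
    rw [Function.onFun, Finset.disjoint_left]
    intro x hx hx'
    simp only [Finset.mem_image] at hx hx'
    obtain ⟨a, -, rfl⟩ := hx
    obtain ⟨b, -, h⟩ := hx'
    exact hne (List.cons.inj h).2.symm

theorem le_card_red (L : ℕ) : (2 * Fintype.card α - 1) ^ L ≤ (red α L).card := by
  induction L with
  | zero => simp [red]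
  | succ L ih =>
    rw [card_red_succ, pow_succ]
    calc (2 * Fintype.card α - 1) ^ L * (2 * Fintype.card α - 1)
        ≤ (red α L).card * (2 * Fintype.card α - 1) := Nat.mul_le_mul_right _ ih
      _ = ∑ _w ∈ red α L, (2 * Fintype.card α - 1) := by simp
      _ ≤ _ := Finset.sum_le_sum fun w _ => by split_ifs <;> omega

theorem card_red_le (L : ℕ) :
    (red α (L + 1)).card ≤ 2 * Fintype.card α * (2 * Fintype.card α - 1) ^ L := by
  induction L with
  | zero => rw [card_red_succ]; simp [red]
  | succ L ih =>
    rw [card_red_succ, pow_succ, ← mul_assoc]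
    calc _ = ∑ _w ∈ red α (L + 1), (2 * Fintype.card α - 1) := by
          refine Finset.sum_congr rfl fun w hw => ?_
          have : w ≠ [] := by
            rintro rfl
            simpa using (mem_red.1 hw).1
          simp [this]
      _ = (red α (L + 1)).card * (2 * Fintype.card α - 1) := by simp
      _ ≤ _ := Nat.mul_le_mul_right _ ih

end Count

section Path
variable {α : Type} [DecidableEq α] (a : α)

/-- exponent sum of the letter `a` -/
def expo : List (α × Bool) → ℤ
  | [] => 0
  | l :: w => (if l.1 = a then (if l.2 then 1 else -1) else 0) + expo w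

/-- the letters other than `a`, with the `a`-exponent of the suffix after them -/
def path : List (α × Bool) → List ((α × ℤ) × Bool)
  | [] => []
  | l :: w => if l.1 = a then path w else ((l.1, expo a w), l.2) :: path w

theorem expo_append (u w : List (α × Bool)) : expo a (u ++ w) = expo a u + expo a w := by
  induction u with
  | nil => simp [expo]
  | cons l u ih => simp [expo, ih, add_assoc]

theorem abs_expo_le (w : List (α × Bool)) : |expo a w| ≤ w.length := by
  induction w with
  | nil => simp [expo]
  | cons l w ih =>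
    simp only [expo, List.length_cons]
    rw [abs_le] at ih ⊢
    push_cast
    split_ifs <;> constructor <;> linarith [ih.1, ih.2]

theorem path_append (u w : List (α × Bool)) (hw : expo a w = 0) :
    path a (u ++ w) = path a u ++ path a w := by
  induction u with
  | nil => simp [path]
  | cons l u ih =>
    simp only [List.cons_append, path, ih, expo_append, hw, add_zero]
    split_ifs <;> simp

theorem path_bound (w : List (α × Bool)) : ∀ e ∈ path a w, |e.1.2| ≤ w.length := by
  induction w with
  | nil => simp [path]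
  | cons l w ih =>
    intro e he
    simp only [path] at he
    have h1 : ∀ e ∈ path a w, |e.1.2| ≤ ((l :: w).length : ℤ) := fun e he => by
      have := ih e he
      simp only [List.length_cons]; push_cast; linarith
    split_ifs at he
    · exact h1 e he
    · rcases List.mem_cons.1 he with rfl | he
      · have := abs_expo_le a w
        simp only [List.length_cons]; push_cast; linarith
      · exact h1 e he

theorem length_path_le (w : List (α × Bool)) : (path a w).length ≤ w.length := by
  induction w with
  | nil => simp [path]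
  | cons l w ih =>
    simp only [path]
    split_ifs <;> simp <;> omega

theorem head_path (w : List (α × Bool)) (hw : IsReduced w) :
    ∀ l ∈ w.head?, ∀ e ∈ (path a w).head?,
      (l.1 ≠ a → e = ((l.1, expo a w), l.2)) ∧
      (l.1 = a → l.2 = true → e.1.2 < expo a w) ∧ (l.1 = a → l.2 = false → expo a w < e.1.2) := by
  induction w with
  | nil => simp
  | cons l w ih =>
    intro l' hl' e he
    simp only [List.head?_cons, Option.mem_def, Option.some.injEq] at hl'
    subst hl'
    have hw' : IsReduced w := List.IsChain.tail hw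
    by_cases hl : l.1 = a
    · simp only [path, hl, if_true] at he
      cases w with
      | nil => simp [path] at he
      | cons m w =>
        have h := ih hw' m (by simp) e he
        have hlm := (isReduced_cons_cons.1 hw).1
        refine ⟨fun h' => absurd hl h', fun _ h2 => ?_, fun _ h2 => ?_⟩
        · rw [expo]
          simp only [hl, h2, if_true]
          by_cases hm : m.1 = a
          · have := h.2.1 hm (by rw [← hlm (hl.trans hm.symm), h2])
            linarith
          · rw [h.1 hm]; simp
        · rw [expo]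
          simp only [hl, h2, if_true]
          by_cases hm : m.1 = a
          · have := h.2.2 hm (by rw [← hlm (hl.trans hm.symm), h2])
            simp only [Bool.false_eq_true, if_false]
            linarith
          · rw [h.1 hm]; simp
    · simp only [path, hl, if_false, List.head?_cons, Option.mem_def, Option.some.injEq] at he
      refine ⟨fun _ => ?_, fun h => absurd h hl, fun h => absurd h hl⟩
      rw [← he]
      simp [expo, hl]

theorem isReduced_path (w : List (α × Bool)) (hw : IsReduced w) : IsReduced (path a w) := by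
  induction w with
  | nil => exact IsReduced.nil
  | cons l w ih =>
    have hw' : IsReduced w := List.IsChain.tail hw
    simp only [path]
    split_ifs with hl
    · exact ih hw'
    · rw [FreeGroup.IsReduced, List.isChain_cons]
      refine ⟨fun e he h => ?_, ih hw'⟩
      cases w with
      | nil => simp [path] at he
      | cons m w =>
        have h1 := head_path a _ hw' m (by simp) e he
        have hlm := (isReduced_cons_cons.1 hw).1
        by_cases hm : m.1 = a
        · exfalso
          have h2 : e.1.2 = expo a (m :: w) := by rw [← h]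
          cases hm2 : m.2
          · have := h1.2.2 hm hm2; omega
          · have := h1.2.1 hm hm2; omega
        · rw [h1.1 hm] at h ⊢
          simp only [Prod.mk.injEq] at h
          exact hlm h.1

theorem lift_path (w : List (α × Bool)) :
    FreeGroup.lift (fun p : α × ℤ => (of a) ^ (-p.2) * of p.1 * (of a) ^ p.2) (mk (path a w)) =
      (of a) ^ (-expo a w) * mk w := by
  induction w with
  | nil => simp [path, expo, ← one_eq_mk]
  | cons l w ih =>
    obtain ⟨i, b⟩ := l
    have hm : ∀ {β : Type} (x : β) (c : Bool) (u : List (β × Bool)),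
        (mk ((x, c) :: u) : FreeGroup β) = (if c then of x else (of x)⁻¹) * mk u := by
      intro β x c u
      cases c
      · simp only [Bool.false_eq_true, if_false, of, inv_mk, mul_mk]; rfl
      · simp only [if_true, of, mul_mk]; rfl
    simp only [path, expo]
    by_cases hi : i = a
    · subst hi
      simp only [if_true, ih, hm]
      cases b
      · simp only [Bool.false_eq_true, if_false]; group
      · simp only [if_true]; group
    · simp only [hi, if_false, hm, _root_.map_mul, ih, zero_add]
      cases b
      · simp only [Bool.false_eq_true, if_false, _root_.map_inv, lift_apply_of]; group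
      · simp only [if_true, lift_apply_of]; group

theorem path_inj {w w' : List (α × Bool)} (hw : IsReduced w) (hw' : IsReduced w')
    (h0 : expo a w = 0) (h0' : expo a w' = 0) (h : path a w = path a w') : w = w' := by
  have h1 := lift_path a w
  rw [h, lift_path, h0, h0'] at h1
  have h2 : (mk w' : FreeGroup α) = mk w := by simpa using h1
  have := reduce.sound h2
  rw [hw.reduce_eq, hw'.reduce_eq] at this
  exact this.symm

end Path

end Pool.Agent.MP_0de6ea_al

end MrgPart0

-- ======== part 1: formerly Pool.Agent.MP_0de6ea_al.Family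
section MrgPart1

namespace Pool.Agent.MP_0de6ea_al

open FreeGroup

variable {α : Type} [DecidableEq α] (a b : α)

/-- reduced words of length `l` from `b` to `b` with `a`-exponent zero and bounded positions -/
structure Good (r l : ℕ) (w : List (α × Bool)) : Prop where
  len : w.length = l
  red : IsReduced w
  head : w.head? = some (b, true)
  last : w.getLast? = some (b, true)
  ex : expo a w = 0
  bd : ∀ e ∈ path a w, |e.1.2| ≤ r

theorem isReduced_append_of {β : Type} {u w : List (β × Bool)} (hu : IsReduced u)
    (hw : IsReduced w) (h1 : ∀ x ∈ u.getLast?, x.2 = true) (h2 : ∀ y ∈ w.head?, y.2 = true) :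
    IsReduced (u ++ w) := by
  rw [FreeGroup.IsReduced, List.isChain_append]
  exact ⟨hu, hw, fun x hx y hy _ => by rw [h1 x hx, h2 y hy]⟩

variable {a b}

theorem Good.ne_nil {r l : ℕ} {w : List (α × Bool)} (h : Good a b r l w) : w ≠ [] := by
  rintro rfl
  simpa using h.head

theorem Good.append {r l l' : ℕ} {w w' : List (α × Bool)} (h : Good a b r l w)
    (h' : Good a b r l' w') : Good a b r (l + l') (w ++ w') where
  len := by simp [h.len, h'.len]
  red := isReduced_append_of h.red h'.red (by simp [h.last]) (by simp [h'.head])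
  head := by rw [List.head?_append, h.head]; rfl
  last := by rw [List.getLast?_append, h'.last]; rfl
  ex := by rw [expo_append, h.ex, h'.ex]; rfl
  bd := by
    rw [path_append a _ _ h'.ex]
    intro e he
    rcases List.mem_append.1 he with he | he
    · exact h.bd e he
    · exact h'.bd e he

theorem exists_pow_family {r l : ℕ} (S : Finset (List (α × Bool)))
    (hS : ∀ w ∈ S, Good a b r l w) (k : ℕ) :
    ∃ W : Finset (List (α × Bool)), (∀ w ∈ W, Good a b r ((k + 1) * l) w) ∧
      W.card = S.card ^ (k + 1) := by
  induction k with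
  | zero => exact ⟨S, by simpa using hS, by simp⟩
  | succ k ih =>
    obtain ⟨W, hW, hc⟩ := ih
    refine ⟨(S ×ˢ W).image fun p => p.1 ++ p.2, ?_, ?_⟩
    · intro w hw
      obtain ⟨p, hp, rfl⟩ := Finset.mem_image.1 hw
      obtain ⟨h1, h2⟩ := Finset.mem_product.1 hp
      have := (hS _ h1).append (hW _ h2)
      rwa [show l + (k + 1) * l = (k + 1 + 1) * l by ring] at this
    · rw [Finset.card_image_of_injOn, Finset.card_product, hc]
      · ring
      · intro p hp q hq h
        obtain ⟨h1, -⟩ := Finset.mem_product.1 (Finset.mem_coe.1 hp)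
        obtain ⟨h2, -⟩ := Finset.mem_product.1 (Finset.mem_coe.1 hq)
        have := List.append_inj h (by rw [(hS _ h1).len, (hS _ h2).len])
        exact Prod.ext this.1 this.2

variable (a b)

/-- change the sign of the letter `a` -/
def flip (w : List (α × Bool)) : List (α × Bool) :=
  w.map fun l => if l.1 = a then (l.1, !l.2) else l

theorem expo_flip (w : List (α × Bool)) : expo a (flip a w) = -expo a w := by
  induction w with
  | nil => simp [flip, expo]
  | cons l w ih =>
    simp only [flip, List.map_cons, expo] at ih ⊢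
    rw [ih]
    obtain ⟨i, c⟩ := l
    by_cases hi : i = a <;> cases c <;> simp [hi] <;> ring

theorem flip_inj : Function.Injective (flip a : List (α × Bool) → _) := by
  refine List.map_injective_iff.2 ?_
  rintro ⟨i, c⟩ ⟨i', c'⟩ h
  by_cases hi : i = a <;> by_cases hi' : i' = a <;> simp_all

theorem isReduced_flip {w : List (α × Bool)} (hw : IsReduced w) : IsReduced (flip a w) := by
  rw [FreeGroup.IsReduced, flip, List.isChain_map]
  refine List.IsChain.imp ?_ hw
  rintro ⟨i, c⟩ ⟨i', c'⟩ h
  by_cases hi : i = a <;> by_cases hi' : i' = a <;> simp_all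

/-- padding -/
def pad (u : List (α × Bool)) : List (α × Bool) :=
  (b, true) :: (if u.head? = some (b, false) then (a, true) else (b, true)) ::
    (u ++ [if u.getLast? = some (b, false) then (a, true) else (b, true), (b, true)])

theorem pad_inj : Function.Injective (pad a b) := by
  intro u u' h
  simp only [pad, List.cons.injEq, true_and] at h
  exact (List.append_inj' h.2 rfl).1

theorem length_pad (u : List (α × Bool)) : (pad a b u).length = u.length + 4 := by
  simp [pad]

theorem head_pad (u : List (α × Bool)) : (pad a b u).head? = some (b, true) := rfl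

theorem last_pad (u : List (α × Bool)) : (pad a b u).getLast? = some (b, true) := by
  rw [pad, ← List.cons_append, ← List.cons_append, List.getLast?_append]
  rfl

theorem isReduced_pad (hab : a ≠ b) {u : List (α × Bool)} (hu : IsReduced u) :
    IsReduced (pad a b u) := by
  rw [pad, isReduced_cons_cons]
  refine ⟨by split_ifs <;> simp, ?_⟩
  rw [FreeGroup.IsReduced, List.isChain_cons]
  refine ⟨?_, ?_⟩
  · cases u with
    | nil => simp
    | cons m u =>
      obtain ⟨i, c⟩ := m
      intro y hy
      simp only [List.cons_append, List.head?_cons, Option.mem_def, Option.some.injEq] at hy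
      subst hy
      by_cases hi : i = b <;> cases c <;> simp [hi, hab, Ne.symm]
  · rw [List.isChain_append]
    refine ⟨hu, by simp; split_ifs <;> simp, ?_⟩
    rintro ⟨i, c⟩ hx y hy
    simp only [List.head?_cons, Option.mem_def, Option.some.injEq] at hx hy
    subst hy
    rw [hx]
    by_cases hi : i = b <;> cases c <;> simp [hi, hab.symm]

theorem exists_base_family [Fintype α] (hab : a ≠ b) (L : ℕ) :
    ∃ S : Finset (List (α × Bool)), (∀ w ∈ S, Good a b (2 * (L + 4)) (2 * (L + 4)) w) ∧
      (2 * Fintype.card α - 1) ^ (2 * L) ≤ S.card * (2 * L + 9) ^ 2 := by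
  classical
  set U := (red α L).image (pad a b) with hU
  have hUc : U.card = (red α L).card := Finset.card_image_of_injective _ (pad_inj a b)
  have hmap : ∀ w ∈ U, expo a w ∈ Finset.Icc (-((L : ℤ) + 4)) (L + 4) := by
    intro w hw
    obtain ⟨u, hu, rfl⟩ := Finset.mem_image.1 hw
    have := abs_expo_le a (pad a b u)
    rw [length_pad, (mem_red.1 hu).1, abs_le] at this
    simpa using this
  have hI : (Finset.Icc (-((L : ℤ) + 4)) (L + 4)).card = 2 * L + 9 := by
    rw [Int.card_Icc]; omega
  obtain ⟨e, -, he⟩ := Finset.exists_max_image (Finset.Icc (-((L : ℤ) + 4)) (L + 4))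
    (fun e => (U.filter fun w => expo a w = e).card) ⟨0, by simp; omega⟩
  set V := U.filter fun w => expo a w = e with hV
  have hle : U.card ≤ V.card * (2 * L + 9) := by
    rw [Finset.card_eq_sum_card_fiberwise hmap, ← hI, mul_comm, ← smul_eq_mul]
    exact Finset.sum_le_card_nsmul _ _ _ he
  have hVp : ∀ w ∈ V, w.length = L + 4 ∧ IsReduced w ∧ w.head? = some (b, true) ∧
      w.getLast? = some (b, true) ∧ expo a w = e := by
    intro w hw
    obtain ⟨hw1, hw2⟩ := Finset.mem_filter.1 hw
    obtain ⟨u, hu, rfl⟩ := Finset.mem_image.1 hw1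
    exact ⟨by rw [length_pad, (mem_red.1 hu).1], isReduced_pad a b hab (mem_red.1 hu).2,
      head_pad a b u, last_pad a b u, hw2⟩
  refine ⟨(V ×ˢ V).image fun p => p.1 ++ flip a p.2, ?_, ?_⟩
  · intro w hw
    obtain ⟨p, hp, rfl⟩ := Finset.mem_image.1 hw
    obtain ⟨h1, h2⟩ := Finset.mem_product.1 hp
    obtain ⟨a1, a2, a3, a4, a5⟩ := hVp _ h1
    obtain ⟨b1, b2, b3, b4, b5⟩ := hVp _ h2
    have hlen : (p.1 ++ flip a p.2).length = 2 * (L + 4) := by
      simp [flip, a1, b1]; ring
    have c3 : (flip a p.2).head? = some (b, true) := by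
      simp [flip, b3, hab.symm]
    have c4 : (flip a p.2).getLast? = some (b, true) := by
      simp [flip, List.getLast?_map, b4, hab.symm]
    refine ⟨hlen, isReduced_append_of a2 (isReduced_flip a b2) (by simp [a4]) (by simp [c3]),
      by rw [List.head?_append, a3]; rfl, by rw [List.getLast?_append, c4]; rfl,
      by rw [expo_append, expo_flip, a5, b5]; ring, ?_⟩
    intro x hx
    have := path_bound a _ x hx
    rwa [hlen] at this
  · rw [Finset.card_image_of_injOn, Finset.card_product]
    · have h1 := le_card_red (α := α) L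
      rw [← hUc] at h1
      have h2 := h1.trans hle
      calc (2 * Fintype.card α - 1) ^ (2 * L) = ((2 * Fintype.card α - 1) ^ L) ^ 2 := by ring
        _ ≤ (V.card * (2 * L + 9)) ^ 2 := Nat.pow_le_pow_left h2 2
        _ = _ := by ring
    · intro p hp q hq h
      obtain ⟨h1, -⟩ := Finset.mem_product.1 (Finset.mem_coe.1 hp)
      obtain ⟨h2, -⟩ := Finset.mem_product.1 (Finset.mem_coe.1 hq)
      have := List.append_inj h (by rw [(hVp _ h1).1, (hVp _ h2).1])
      exact Prod.ext this.1 (flip_inj a this.2)

end Pool.Agent.MP_0de6ea_al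

end MrgPart1

-- ======== part 2: formerly Pool.Agent.MP_0de6ea_al.Cosets
section MrgPart2

namespace Pool.Agent.MP_0de6ea_al

open FreeGroup

/-- value of a word -/
def ev {α H : Type} [Group H] (s : α → H) (w : List (α × Bool)) : H :=
  (w.map fun x => if x.2 then s x.1 else (s x.1)⁻¹).prod

theorem ev_nil {α H : Type} [Group H] (s : α → H) : ev s [] = 1 := rfl

theorem ev_cons {α H : Type} [Group H] (s : α → H) (l : α × Bool) (w : List (α × Bool)) :
    ev s (l :: w) = (if l.2 then s l.1 else (s l.1)⁻¹) * ev s w := by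
  simp [ev]

theorem ev_append {α H : Type} [Group H] (s : α → H) (u w : List (α × Bool)) :
    ev s (u ++ w) = ev s u * ev s w := by
  simp [ev]

theorem mk_cons' {β : Type} (x : β) (c : Bool) (u : List (β × Bool)) :
    (mk ((x, c) :: u) : FreeGroup β) = (if c then of x else (of x)⁻¹) * mk u := by
  cases c
  · simp only [Bool.false_eq_true, if_false, of, inv_mk, mul_mk]; rfl
  · simp only [if_true, of, mul_mk]; rfl

theorem free_local (β : Type) [Finite β] (R : ℕ) :
    ∃ (P : Type) (_ : Group P) (_ : Finite P) (φ : FreeGroup β →* P),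
      ∀ u v : List (β × Bool), u.length ≤ R → v.length ≤ R → φ (mk u) = φ (mk v) →
        mk u = mk v := by
  classical
  let Ω : Set (FreeGroup β) := mk '' {L | L.length ≤ R}
  have hfin : Ω.Finite := (List.finite_length_le _ R).image _
  have : Finite Ω := hfin.to_subtype
  have hτ : ∀ x : β, ∃ τ : Equiv.Perm Ω, ∀ (ω : Ω) (h : of x * ω.1 ∈ Ω), τ ω = ⟨of x * ω.1, h⟩ := by
    intro x
    obtain ⟨τ, hτ⟩ := Equiv.Perm.exists_extending_pair
      (α := {ω : Ω // of x * ω.1 ∈ Ω}) (β := Ω) (f := fun d => d.1)
      (g := fun d => ⟨of x * d.1.1, d.2⟩) Subtype.val_injective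
      (fun d d' h => Subtype.ext (Subtype.ext (mul_left_cancel (congrArg Subtype.val h))))
    exact ⟨τ, fun ω h => hτ ⟨ω, h⟩⟩
  choose τ hτ using hτ
  have h1 : (1 : FreeGroup β) ∈ Ω := ⟨[], by simp, rfl⟩
  have key : ∀ (L : List (β × Bool)) (hL : L.length ≤ R),
      (lift τ (mk L)) ⟨1, h1⟩ = ⟨mk L, ⟨L, hL, rfl⟩⟩ := by
    intro L
    induction L with
    | nil => intro _; rfl
    | cons l L ih =>
      intro hL
      obtain ⟨x, c⟩ := l
      have hL' : L.length ≤ R := by simp at hL; omega
      have hm : (mk ((x, c) :: L) : FreeGroup β) ∈ Ω := ⟨_, hL, rfl⟩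
      apply Subtype.ext
      rw [mk_cons'] at hm
      simp only [mk_cons', _root_.map_mul, Equiv.Perm.coe_mul, Function.comp, ih hL']
      cases c
      · simp only [Bool.false_eq_true, if_false, _root_.map_inv, lift_apply_of] at hm ⊢
        have h2 := hτ x ⟨_, hm⟩ (by
          rw [mul_inv_cancel_left]; exact ⟨L, hL', rfl⟩)
        simp only [mul_inv_cancel_left] at h2
        rw [← h2]
        simp
      · simp only [if_true, lift_apply_of] at hm ⊢
        rw [hτ x ⟨mk L, ⟨L, hL', rfl⟩⟩ hm]
  refine ⟨Equiv.Perm Ω, inferInstance, inferInstance, lift τ, fun u v hu hv h => ?_⟩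
  have := key u hu
  rw [h, key v hv] at this
  exact (congrArg Subtype.val this).symm

variable {α : Type} [DecidableEq α]

/-- the path with positions reduced mod `j` and shifted by `k` -/
def pm (a : α) (j : ℕ) (w : List (α × Bool)) (k : ZMod j) : List ((α × ZMod j) × Bool) :=
  (path a w).map fun e => ((e.1.1, (e.1.2 : ZMod j) + k), e.2)

theorem cast_inj_of_bd {r : ℕ} {x y : ℤ} (hx : |x| ≤ r) (hy : |y| ≤ r)
    (h : (x : ZMod (2 * r + 1)) = y) : x = y := by
  rw [ZMod.intCast_eq_intCast_iff_dvd_sub] at h
  have := Int.eq_zero_of_abs_lt_dvd h (by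
    rw [abs_le] at hx hy
    rw [abs_lt]; push_cast; constructor <;> linarith [hx.1, hx.2, hy.1, hy.2])
  linarith

variable {a b : α}

theorem Good.pm_red {r l : ℕ} {w : List (α × Bool)} (h : Good a b r l w) (k : ZMod (2 * r + 1)) :
    IsReduced (pm a (2 * r + 1) w k) := by
  rw [FreeGroup.IsReduced, pm, List.isChain_map]
  have h1 : List.IsChain (fun x y => (x ∈ path a w ∧ y ∈ path a w) ∧ (x.1 = y.1 → x.2 = y.2))
      (path a w) := by
    have := isReduced_path a w h.red
    rw [FreeGroup.IsReduced] at this
    exact List.IsChain.iff_mem.1 this |>.imp fun x y hxy => ⟨⟨hxy.1, hxy.2.1⟩, hxy.2.2⟩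
  refine h1.imp fun x y hxy h2 => hxy.2 ?_
  simp only [Prod.mk.injEq, add_left_inj] at h2
  exact Prod.ext h2.1 (cast_inj_of_bd (h.bd x hxy.1.1) (h.bd y hxy.1.2) h2.2)

theorem Good.pm_head (hab : a ≠ b) {r l : ℕ} {w : List (α × Bool)} (h : Good a b r l w)
    (j : ℕ) (k : ZMod j) : (pm a j w k).head? = some ((b, k), true) := by
  cases w with
  | nil => exact absurd rfl h.ne_nil
  | cons m w =>
    have h1 := h.head
    have h2 := h.ex
    simp only [List.head?_cons, Option.some.injEq] at h1
    subst h1
    simp only [expo, hab.symm, if_false, zero_add] at h2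
    simp [pm, path, hab.symm, h2]

theorem Good.pm_last (hab : a ≠ b) {r l : ℕ} {w : List (α × Bool)} (h : Good a b r l w)
    (j : ℕ) (k : ZMod j) : ∀ x ∈ (pm a j w k).getLast?, x.2 = true := by
  obtain ⟨u, rfl⟩ : ∃ u, w = u ++ [(b, true)] := by
    have := h.last
    rw [List.getLast?_eq_some_iff] at this
    exact this
  rw [pm, path_append a _ _ (by simp [expo, hab.symm])]
  simp [path, hab.symm]

theorem Good.pm_inj {r l : ℕ} {w w' : List (α × Bool)} (h : Good a b r l w)
    (h' : Good a b r l w') (k : ZMod (2 * r + 1))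
    (he : pm a (2 * r + 1) w k = pm a (2 * r + 1) w' k) : w = w' := by
  refine path_inj a h.red h'.red h.ex h'.ex ?_
  have hlen : (path a w).length = (path a w').length := by
    simpa [pm] using congrArg List.length he
  refine List.ext_getElem hlen fun i h1 h2 => ?_
  have := congrArg (fun L => L[i]?) he
  simp only [pm, List.getElem?_map, List.getElem?_eq_getElem h1, List.getElem?_eq_getElem h2,
    Option.map_some, Option.some.injEq, Prod.mk.injEq, add_left_inj] at this
  exact Prod.ext (Prod.ext this.1.1 (cast_inj_of_bd (h.bd _ (List.getElem_mem h1))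
    (h'.bd _ (List.getElem_mem h2)) this.1.2)) this.2

theorem exists_cosets [Finite α] (hab : a ≠ b) (r l : ℕ) :
    ∃ (Q : Type) (_ : Group Q) (_ : Finite Q) (s : α → Q), s a ^ (2 * r + 1) = 1 ∧
      (∀ t t', Good a b r l t → Good a b r l t' → ∀ x ∈ Subgroup.zpowers (s a),
        ∀ y ∈ Subgroup.zpowers (s a), x * ev s t * y = ev s t' → t = t') ∧
      (∀ t t', Good a b r l t → Good a b r l t' → ∀ x ∈ Subgroup.zpowers (s a),
        ∀ y ∈ Subgroup.zpowers (s a), x * ev s t * y * ev s t' ≠ 1) ∧
      (∀ t, Good a b r l t → ev s t ∉ Subgroup.zpowers (s a)) := by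
  set j := 2 * r + 1 with hj
  obtain ⟨P, _, _, φ, hφ⟩ := free_local (α × ZMod j) (2 * l)
  let sa : Equiv.Perm (P × ZMod j) := Equiv.prodCongr (Equiv.refl P) (Equiv.addRight 1)
  let sb : α → Equiv.Perm (P × ZMod j) := fun i =>
    { toFun := fun p => (φ (of (i, p.2)) * p.1, p.2)
      invFun := fun p => ((φ (of (i, p.2)))⁻¹ * p.1, p.2)
      left_inv := fun p => by simp
      right_inv := fun p => by simp }
  let s : α → Equiv.Perm (P × ZMod j) := fun i => if i = a then sa else sb i
  have hsa : s a = sa := by simp [s]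
  have hact : ∀ (w : List (α × Bool)) (g : P) (k : ZMod j),
      ev s w (g, k) = (φ (mk (pm a j w k)) * g, (expo a w : ZMod j) + k) := by
    intro w g k
    induction w with
    | nil => simp [ev_nil, pm, path, expo, ← one_eq_mk]
    | cons m w ih =>
      obtain ⟨i, c⟩ := m
      rw [ev_cons, Equiv.Perm.mul_apply, ih]
      by_cases hi : i = a
      · subst hi
        cases c
        · simp only [Bool.false_eq_true, if_false, hsa, pm, path, if_true, expo]
          rw [Equiv.Perm.inv_eq_iff_eq]
          simp [sa]; ring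
        · simp only [if_true, hsa, pm, path, expo]
          simp [sa]; ring
      · have hs : s i = sb i := by simp [s, hi]
        cases c
        · simp only [Bool.false_eq_true, if_false, hs, pm, path, hi, expo, List.map_cons,
            mk_cons', zero_add, _root_.map_mul, _root_.map_inv]
          rw [Equiv.Perm.inv_eq_iff_eq]
          simp [sb, mul_assoc]
        · simp only [if_true, if_false, hs, pm, path, hi, expo, List.map_cons,
            mk_cons', zero_add, _root_.map_mul]
          simp [sb, mul_assoc]
  have hpow : ∀ (n : ℕ) (g : P) (k : ZMod j), (sa ^ n) (g, k) = (g, k + n) := by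
    intro n
    induction n with
    | zero => simp
    | succ n ih =>
      intro g k
      rw [pow_succ', Equiv.Perm.mul_apply, ih]
      simp [sa, add_assoc]
  have hz : ∀ x ∈ Subgroup.zpowers (s a), ∃ y : ZMod j, ∀ g k, x (g, k) = (g, k + y) := by
    intro x hx
    rw [hsa, ← mem_powers_iff_mem_zpowers] at hx
    obtain ⟨n, rfl⟩ := hx
    exact ⟨n, hpow n⟩
  have hlen : ∀ t, Good a b r l t → ∀ k, (pm a j t k).length ≤ l := fun t ht k => by
    rw [pm, List.length_map, ← ht.len]; exact length_path_le a t
  have hne : ∀ u : List ((α × ZMod j) × Bool), IsReduced u → u ≠ [] → u.length ≤ 2 * l →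
      φ (mk u) ≠ 1 := by
    classical
    intro u hu hu' hl h
    have := hφ u [] hl (by simp) (by rw [h, ← one_eq_mk, _root_.map_one])
    have := reduce.sound this
    rw [hu.reduce_eq] at this
    exact hu' this
  refine ⟨Equiv.Perm (P × ZMod j), inferInstance, inferInstance, s, ?_, ?_, ?_, ?_⟩
  · ext ⟨g, k⟩ <;> simp [hsa, hpow]
  · classical
    intro t t' ht ht' x hx y hy h
    obtain ⟨x', hx'⟩ := hz x hx
    obtain ⟨y', hy'⟩ := hz y hy
    have h1 := congrArg (fun σ : Equiv.Perm (P × ZMod j) => (σ (1, 0)).1) h
    simp only [Equiv.Perm.mul_apply, hy', hact, hx', mul_one, zero_add] at h1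
    have h2 := reduce.sound (hφ _ _ ((hlen t ht _).trans (by omega))
      ((hlen t' ht' _).trans (by omega)) h1)
    rw [(ht.pm_red y').reduce_eq, (ht'.pm_red 0).reduce_eq] at h2
    have h3 := congrArg List.head? h2
    rw [ht.pm_head hab, ht'.pm_head hab] at h3
    simp only [Option.some.injEq, Prod.mk.injEq, true_and, and_true] at h3
    subst h3
    exact ht.pm_inj ht' 0 h2
  · intro t t' ht ht' x hx y hy h
    obtain ⟨x', hx'⟩ := hz x hx
    obtain ⟨y', hy'⟩ := hz y hy
    have h1 := congrArg (fun σ : Equiv.Perm (P × ZMod j) => (σ (1, 0)).1) h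
    simp only [Equiv.Perm.mul_apply, hy', hact, hx', mul_one, Equiv.Perm.one_apply,
      ← _root_.map_mul, mul_mk] at h1
    refine hne _ (isReduced_append_of (ht.pm_red _) (ht'.pm_red 0) (ht.pm_last hab _ _)
      (by simp [ht'.pm_head hab])) ?_ ?_ h1
    · intro h2
      have := ht'.pm_head hab j 0
      rw [(List.append_eq_nil_iff.1 h2).2] at this
      simp at this
    · rw [List.length_append]
      exact (Nat.add_le_add (hlen t ht _) (hlen t' ht' 0)).trans (by omega)
  · intro t ht h
    obtain ⟨x', hx'⟩ := hz _ h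
    have h1 := hx' 1 0
    rw [hact] at h1
    refine hne _ (ht.pm_red 0) ?_ ((hlen t ht _).trans (by omega))
      (by simpa using congrArg Prod.fst h1)
    intro h2
    have := ht.pm_head hab j 0
    rw [h2] at this
    simp at this

end Pool.Agent.MP_0de6ea_al

end MrgPart2

-- ======== part 3: formerly Pool.Agent.MP_0de6ea_al.Heis
section MrgPart3

namespace Pool.Agent.MP_0de6ea_al

open Matrix

section
variable {R X Q : Type} [CommRing R] [Fintype X] [Group Q] [MulAction Q X]

/-- Heisenberg translation -/
def trn (C : Matrix X X R) (v : X → R) (z : R) : Equiv.Perm (R × (X → R)) where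
  toFun p := (z + p.1 + v ⬝ᵥ (C *ᵥ p.2), v + p.2)
  invFun p := (p.1 - z - v ⬝ᵥ (C *ᵥ (p.2 - v)), p.2 - v)
  left_inv p := Prod.ext (by simp only [add_sub_cancel_left]; ring) (by simp)
  right_inv p := Prod.ext (by simp only []; ring) (by simp)

/-- permutation of coordinates -/
def rot (R : Type) (X : Type) [MulAction Q X] : Q →* Equiv.Perm (R × (X → R)) where
  toFun q :=
    { toFun := fun p => (p.1, fun x => p.2 (q⁻¹ • x))
      invFun := fun p => (p.1, fun x => p.2 (q • x))
      left_inv := fun p => by simp
      right_inv := fun p => by simp }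
  map_one' := by ext p <;> simp
  map_mul' q q' := by ext p <;> simp [mul_smul]

omit [CommRing R] [Fintype X] in
theorem rot_apply (q : Q) (p : R × (X → R)) :
    rot R X q p = (p.1, fun x => p.2 (q⁻¹ • x)) := rfl

theorem trn_apply (C : Matrix X X R) (v : X → R) (z : R) (p : R × (X → R)) :
    trn C v z p = (z + p.1 + v ⬝ᵥ (C *ᵥ p.2), v + p.2) := rfl

theorem trn_mul (C : Matrix X X R) (v v' : X → R) (z z' : R) :
    trn C v z * trn C v' z' = trn C (v + v') (z + z' + v ⬝ᵥ (C *ᵥ v')) := by
  ext p : 1
  simp only [Equiv.Perm.mul_apply, trn_apply, mulVec_add, dotProduct_add, add_dotProduct,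
    add_assoc, Prod.mk.injEq, and_true]
  ring

theorem trn_zero (C : Matrix X X R) : trn C 0 0 = 1 := by
  ext p : 1
  simp [trn_apply]

theorem trn_inv (C : Matrix X X R) (v : X → R) (z : R) :
    (trn C v z)⁻¹ = trn C (-v) (-z + v ⬝ᵥ (C *ᵥ v)) := by
  rw [inv_eq_iff_mul_eq_one, trn_mul, ← trn_zero C]
  simp [mulVec_neg]

theorem form_inv (C : Matrix X X R) (hC : ∀ (q : Q) x y, C (q • x) (q • y) = C x y) (q : Q)
    (v u : X → R) :
    (fun x => v (q⁻¹ • x)) ⬝ᵥ (C *ᵥ fun x => u (q⁻¹ • x)) = v ⬝ᵥ (C *ᵥ u) := by
  simp only [dotProduct, mulVec]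
  rw [← Equiv.sum_comp (MulAction.toPerm q)]
  refine Finset.sum_congr rfl fun x _ => ?_
  rw [← Equiv.sum_comp (MulAction.toPerm q)]
  simp [hC]

theorem rot_trn (C : Matrix X X R) (hC : ∀ (q : Q) x y, C (q • x) (q • y) = C x y) (q : Q)
    (v : X → R) (z : R) :
    rot R X q * trn C v z = trn C (fun x => v (q⁻¹ • x)) z * rot R X q := by
  ext p : 1
  simp only [Equiv.Perm.mul_apply, trn_apply, rot_apply, form_inv C hC]
  rfl

theorem commute_trn (C : Matrix X X R) (v v' : X → R) (z z' : R) :
    Commute (trn C v z) (trn C v' z') ↔ v ⬝ᵥ (C *ᵥ v') = v' ⬝ᵥ (C *ᵥ v) := by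
  rw [commute_iff_eq, trn_mul, trn_mul]
  constructor
  · intro h
    have := congrArg (fun σ : Equiv.Perm (R × (X → R)) => (σ (0, 0)).1) h
    simp only [trn_apply, mulVec_zero, dotProduct_zero, add_zero] at this
    linear_combination this
  · intro h
    rw [h, add_comm v, add_comm z]

end

theorem exists_heis {α Q : Type} [DecidableEq α] [Group Q] [Finite Q] (s : α → Q) (a : α) (j : ℕ)
    (hj : 0 < j) (hs : s a ^ j = 1) (W : Set (List (α × Bool)))
    (h1 : ∀ t ∈ W, ∀ t' ∈ W, ∀ x ∈ Subgroup.zpowers (s a),
        ∀ y ∈ Subgroup.zpowers (s a), x * ev s t * y = ev s t' → t = t')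
    (h2 : ∀ t ∈ W, ∀ t' ∈ W, ∀ x ∈ Subgroup.zpowers (s a),
        ∀ y ∈ Subgroup.zpowers (s a), x * ev s t * y * ev s t' ≠ 1)
    (h3 : ∀ t ∈ W, ev s t ∉ Subgroup.zpowers (s a)) (T : Set (List (α × Bool))) (hT : T ⊆ W) :
    ∃ (H : Type) (_ : Group H) (_ : Finite H) (σ : α → H), ∀ t ∈ W,
      (Commute (σ a ^ j) (ev σ t * σ a ^ j * (ev σ t)⁻¹) ↔ t ∉ T) := by
  classical
  set A := Subgroup.zpowers (s a) with hA
  let X := Q ⧸ A
  let _ : Fintype X := Fintype.ofFinite X
  let R := ZMod (j + 1)
  have : Fact (1 < j + 1) := ⟨by omega⟩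
  let C : Matrix X X R := fun x y =>
    if ∃ q : Q, ∃ t ∈ T, x = (q : Q ⧸ A) ∧ y = ((q * ev s t : Q) : Q ⧸ A) then 1 else 0
  have hC : ∀ (q : Q) x y, C (q • x) (q • y) = C x y := by
    intro q x y
    simp only [C]
    congr 1
    apply propext
    constructor
    · rintro ⟨q', t, ht, e1, e2⟩
      refine ⟨q⁻¹ * q', t, ht, ?_, ?_⟩
      · rw [← inv_smul_smul q x, e1]; rfl
      · rw [← inv_smul_smul q y, e2, mul_assoc]; rfl
    · rintro ⟨q', t, ht, rfl, rfl⟩
      exact ⟨q * q', t, ht, rfl, by rw [mul_assoc]; rfl⟩
  let o : X := ((1 : Q) : Q ⧸ A)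
  let σ : α → Equiv.Perm (R × (X → R)) := fun i =>
    if i = a then trn C (Pi.single o 1) 0 * rot R X (s a) else rot R X (s i)
  have hform : ∀ (x y : X) (c d : R),
      (Pi.single x c : X → R) ⬝ᵥ (C *ᵥ Pi.single y d) = c * (C x y * d) := by
    intro x y c d
    simp [mulVec_single]
    ring
  have hsingle : ∀ (q : Q) (x : X) (c : R),
      (fun y => (Pi.single x c : X → R) (q⁻¹ • y)) = Pi.single (q • x) c := by
    intro q x c
    funext y
    simp only [Pi.single_apply, inv_smul_eq_iff]
  have hoo : C o o = 0 := by
    simp only [C]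
    rw [if_neg]
    rintro ⟨q, t, ht, e1, e2⟩
    have a1 : q ∈ A := by simpa [o] using QuotientGroup.eq.1 e1
    have a2 : q * ev s t ∈ A := by simpa [o] using QuotientGroup.eq.1 e2
    exact h3 t (hT ht) ((Subgroup.mul_mem_cancel_left A a1).1 a2)
  have hao : s a • o = o := by
    change ((s a * 1 : Q) : Q ⧸ A) = ((1 : Q) : Q ⧸ A)
    rw [QuotientGroup.eq]
    simp [hA]
  have hpow : ∀ n : ℕ, σ a ^ n = trn C (Pi.single o (n : R)) 0 * rot R X (s a ^ n) := by
    intro n
    induction n with
    | zero => simp [trn_zero]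
    | succ n ih =>
      rw [pow_succ', ih]
      simp only [σ, if_true]
      rw [mul_assoc, ← mul_assoc (rot R X (s a)), rot_trn C hC, hsingle, hao, mul_assoc,
        ← map_mul, ← pow_succ', ← mul_assoc, trn_mul, hform, hoo, ← Pi.single_add]
      simp [add_comm]
  have hjR : (j : R) = -1 := by
    have : ((j + 1 : ℕ) : R) = 0 := ZMod.natCast_self _
    push_cast at this
    linear_combination this
  have hx : σ a ^ j = trn C (Pi.single o (-1)) 0 := by
    rw [hpow, hs, map_one, mul_one, hjR]
  have hgen : ∀ i, ∃ v z, σ i = trn C v z * rot R X (s i) := by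
    intro i
    by_cases hi : i = a
    · subst hi; exact ⟨_, _, by simp only [σ, if_true]; rfl⟩
    · exact ⟨0, 0, by simp [σ, hi, trn_zero]⟩
  have hev : ∀ w, ∃ v z, ev σ w = trn C v z * rot R X (ev s w) := by
    intro w
    induction w with
    | nil => exact ⟨0, 0, by simp [ev_nil, trn_zero]⟩
    | cons l w ih =>
      obtain ⟨v, z, hw⟩ := ih
      obtain ⟨v', z', hl⟩ := hgen l.1
      rw [ev_cons, ev_cons, hw, hl]
      cases l.2
      · simp only [Bool.false_eq_true, if_false]
        rw [_root_.mul_inv_rev, ← map_inv, trn_inv, mul_assoc, ← mul_assoc (trn _ _ _), trn_mul,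
          ← mul_assoc, rot_trn C hC, mul_assoc, ← map_mul]
        exact ⟨_, _, rfl⟩
      · simp only [if_true]
        rw [mul_assoc, ← mul_assoc (rot R X _), rot_trn C hC, mul_assoc, ← map_mul, ← mul_assoc,
          trn_mul]
        exact ⟨_, _, rfl⟩
  refine ⟨Equiv.Perm (R × (X → R)), inferInstance, inferInstance, σ, fun t ht => ?_⟩
  obtain ⟨v, z, hw⟩ := hev t
  have hconj : ∃ z', ev σ t * σ a ^ j * (ev σ t)⁻¹ =
      trn C (Pi.single (ev s t • o) (-1)) z' := by
    rw [hw, hx, _root_.mul_inv_rev, mul_assoc (trn _ _ _), rot_trn C hC, hsingle, mul_assoc,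
      mul_assoc, ← mul_assoc (rot R X _), mul_inv_cancel, one_mul, trn_inv, trn_mul, trn_mul]
    have hv : v + ((Pi.single (ev s t • o) (-1) : X → R) + -v) = Pi.single (ev s t • o) (-1) := by
      abel
    rw [hv]
    exact ⟨_, rfl⟩
  obtain ⟨z', hz'⟩ := hconj
  rw [hz', hx, commute_trn, hform, hform]
  have hto : ev s t • o = ((ev s t : Q) : Q ⧸ A) := by
    change ((ev s t * 1 : Q) : Q ⧸ A) = _
    rw [mul_one]
  have hb : C (ev s t • o) o = 0 := by
    simp only [C]
    rw [if_neg]
    rintro ⟨q, t', ht', e1, e2⟩
    rw [hto] at e1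
    have a1 : (ev s t)⁻¹ * q ∈ A := QuotientGroup.eq.1 e1
    have a2 : q * ev s t' ∈ A := by simpa [o] using QuotientGroup.eq.1 e2
    exact h2 t ht t' (hT ht') _ (A.inv_mem a2) _ a1 (by group)
  rw [hb]
  by_cases htT : t ∈ T
  · have : C o (ev s t • o) = 1 := by
      simp only [C]
      rw [if_pos]
      exact ⟨1, t, htT, rfl, by rw [hto, one_mul]⟩
    rw [this]
    simp only [htT, not_true_eq_false, iff_false, one_mul, zero_mul, mul_zero]
    intro h
    exact (one_ne_zero : (1 : R) ≠ 0) (by linear_combination h)
  · have : C o (ev s t • o) = 0 := by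
      simp only [C]
      rw [if_neg]
      rintro ⟨q, t', ht', e1, e2⟩
      rw [hto] at e2
      have a1 : q ∈ A := by simpa [o] using QuotientGroup.eq.1 e1
      have a2 : (ev s t)⁻¹ * (q * ev s t') ∈ A := QuotientGroup.eq.1 e2
      have := h1 t ht t' (hT ht') _ (A.inv_mem a1) _ a2 (by group)
      exact htT (this ▸ ht')
    simp [this, htT]

end Pool.Agent.MP_0de6ea_al

end MrgPart3

-- marker of a merged file
example : 731051 + 793531 = 731051 + 793531 := rfl
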