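import Mathlib.Tactic.Algebra.Basic
import Pool.Agent.MP_0de6ea_al.Heis
import Pool.Agent.MP_0de6ea_al.Defs

namespace Pool.Agent.MP_0de6ea_al

variable {d n : ℕ}

theorem ev_mem_ball (M : Marked d) {u : List (Fin d × Bool)} (hu : u.length ≤ n) :
    ev M.s u ∈ M.ball n := ⟨u, hu, rfl⟩

theorem BallIso.refl (M : Marked d) : BallIso n M M :=
  ⟨Equiv.refl _, fun _ => Iff.rfl, fun _ _ _ => Iff.rfl⟩

theorem BallIso.symm {M M' : Marked d} (h : BallIso n M M') : BallIso n M' M := by
  obtain ⟨e, h1, h2⟩ := h
  refine ⟨e.symm, fun x => ?_, fun x y i => ?_⟩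
  · rw [h1, e.apply_symm_apply]
  · rw [h2, e.apply_symm_apply, e.apply_symm_apply]

theorem BallIso.trans {M M' M'' : Marked d} (h : BallIso n M M') (h' : BallIso n M' M'') :
    BallIso n M M'' := by
  obtain ⟨e, h1, h2⟩ := h
  obtain ⟨e', h1', h2'⟩ := h'
  exact ⟨e.trans e', fun x => (h1 x).trans (h1' _), fun x y i => (h2 x y i).trans (h2' _ _ i)⟩

theorem ballIso_equiv : Equivalence (fun M M' : Marked d => BallIso n M M') :=
  ⟨BallIso.refl, BallIso.symm, BallIso.trans⟩

theorem ballIso_equiv' :
    Equivalence (fun M M' : {M : Marked d // Finite M.G} => BallIso n M.1 M'.1) :=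
  ⟨fun _ => BallIso.refl _, BallIso.symm, BallIso.trans⟩

theorem BallIso.ev_eq {M M' : Marked d} (h : BallIso n M M') {u v : List (Fin d × Bool)}
    (hu : u.length ≤ n) (hv : v.length ≤ n) (huv : ev M.s u = ev M.s v) :
    ev M'.s u = ev M'.s v := by
  obtain ⟨e, h1, h2⟩ := h
  have key : ∀ (w : List (Fin d × Bool)) (hw : w.length ≤ n),
      (e ⟨ev M.s w, ev_mem_ball M hw⟩ : M'.G) = ev M'.s w := by
    intro w
    induction w using List.reverseRecOn with
    | nil => intro hw; exact (h1 _).1 rfl
    | append_singleton w l ih =>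
      intro hw
      have hw' : w.length ≤ n := by simp at hw; omega
      obtain ⟨i, c⟩ := l
      cases c
      · have := (h2 ⟨ev M.s (w ++ [(i, false)]), ev_mem_ball M hw⟩ ⟨ev M.s w, ev_mem_ball M hw'⟩
          i).1 (by simp [ev_append, ev_cons, ev_nil])
        rw [ih hw'] at this
        rw [ev_append M'.s, this]
        simp [ev_cons, ev_nil]
      · have := (h2 ⟨ev M.s w, ev_mem_ball M hw'⟩ ⟨ev M.s (w ++ [(i, true)]), ev_mem_ball M hw⟩
          i).1 (by simp [ev_append, ev_cons, ev_nil])
        rw [this, ih hw', ev_append M'.s]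
        simp [ev_cons, ev_nil]
  rw [← key u hu, ← key v hv]
  congr 2
  exact Subtype.ext huv

theorem ev_eq_lift {α H : Type} [Group H] (s : α → H) (w : List (α × Bool)) :
    ev s w = FreeGroup.lift s (FreeGroup.mk w) := by
  induction w with
  | nil => rw [ev_nil]; exact (map_one _).symm
  | cons l w ih =>
    obtain ⟨x, c⟩ := l
    rw [ev_cons, mk_cons', map_mul, ih]
    cases c <;> simp

/-- reduced words of length at most `n` -/
noncomputable def redLe (d n : ℕ) : Finset (List (Fin d × Bool)) :=
  (Finset.range (n + 1)).biUnion (red (Fin d))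

theorem mem_redLe {w : List (Fin d × Bool)} :
    w ∈ redLe d n ↔ w.length ≤ n ∧ FreeGroup.IsReduced w := by
  simp only [redLe, Finset.mem_biUnion, Finset.mem_range, mem_red]
  constructor
  · rintro ⟨k, hk, rfl, h⟩; exact ⟨by omega, h⟩
  · rintro ⟨h, h'⟩; exact ⟨_, by omega, rfl, h'⟩

theorem card_redLe (hd : 1 ≤ d) : (redLe d n).card ≤ (n + 1) * (2 * d * (2 * d - 1) ^ n) := by
  refine Finset.card_biUnion_le.trans ?_
  calc _ ≤ ∑ _k ∈ Finset.range (n + 1), 2 * d * (2 * d - 1) ^ n := by
        refine Finset.sum_le_sum fun k hk => ?_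
        have hk' : k ≤ n := by simpa [Nat.lt_succ_iff] using hk
        have hp : 1 ≤ 2 * d - 1 := by omega
        cases k with
        | zero =>
          have : 1 ≤ (2 * d - 1) ^ n := Nat.one_le_pow _ _ hp
          simp only [red, Finset.card_singleton]
          nlinarith
        | succ k =>
          have := card_red_le (α := Fin d) k
          rw [Fintype.card_fin] at this
          exact this.trans (Nat.mul_le_mul_left _ (Nat.pow_le_pow_right hp (by omega)))
    _ = _ := by simp

theorem exists_red_of_mem_ball (M : Marked d) {g : M.G} (hg : g ∈ M.ball n) :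
    ∃ u : redLe d n, ev M.s u.1 = g := by
  obtain ⟨l, hl, rfl⟩ := hg
  refine ⟨⟨FreeGroup.reduce l, mem_redLe.2 ⟨?_, FreeGroup.isReduced_iff_reduce_eq.2 FreeGroup.reduce.idem⟩⟩, ?_⟩
  · exact (FreeGroup.Red.length_le (FreeGroup.reduce.red)).trans hl
  · change _ = ev M.s l
    simp only [ev_eq_lift, FreeGroup.reduce.self]

open Classical in
/-- a chosen reduced word for an element of the ball -/
noncomputable def rep (n : ℕ) (M : Marked d) (g : M.G) : Option (redLe d n) :=
  if h : ∃ u : redLe d n, ev M.s u.1 = g then some h.choose else none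

theorem rep_eq_iff (M : Marked d) (u : redLe d n) (g : M.G) :
    rep n M (ev M.s u.1) = rep n M g ↔ ev M.s u.1 = g := by
  constructor
  · intro h
    have h0 : ∃ v : redLe d n, ev M.s v.1 = ev M.s u.1 := ⟨u, rfl⟩
    rw [rep, dif_pos h0, rep] at h
    split_ifs at h with h1
    rw [← h0.choose_spec, ← h1.choose_spec, Option.some.inj h]
  · rintro rfl; rfl

/-- the code of a marked ball -/
noncomputable def code (n : ℕ) (M : Marked d) : redLe d n × Option (Fin d) → Option (redLe d n)
  | (u, none) => rep n M (ev M.s u.1)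
  | (u, some i) => rep n M (ev M.s u.1 * M.s i)

theorem ballIso_of_code {M M' : Marked d} (h : code n M = code n M') : BallIso n M M' := by
  have c0 : ∀ u : redLe d n, rep n M (ev M.s u.1) = rep n M' (ev M'.s u.1) :=
    fun u => congrFun h (u, none)
  have c1 : ∀ (u : redLe d n) i, rep n M (ev M.s u.1 * M.s i) = rep n M' (ev M'.s u.1 * M'.s i) :=
    fun u i => congrFun h (u, some i)
  have e0 : ∀ u v : redLe d n, ev M.s u.1 = ev M.s v.1 ↔ ev M'.s u.1 = ev M'.s v.1 := by
    intro u v
    rw [← rep_eq_iff, ← rep_eq_iff, c0, c0]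
  have e1 : ∀ (u v : redLe d n) i, ev M.s v.1 = ev M.s u.1 * M.s i ↔
      ev M'.s v.1 = ev M'.s u.1 * M'.s i := by
    intro u v i
    rw [← rep_eq_iff, ← rep_eq_iff, c0, c1]
  choose p hp using fun x : M.ball n => exists_red_of_mem_ball M x.2
  let f : M.ball n → M'.ball n := fun x =>
    ⟨ev M'.s (p x).1, ev_mem_ball M' (mem_redLe.1 (p x).2).1⟩
  have hf : Function.Bijective f := by
    constructor
    · intro x y hxy
      apply Subtype.ext
      rw [← hp x, ← hp y, e0]
      exact congrArg Subtype.val hxy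
    · intro y
      obtain ⟨u, hu⟩ := exists_red_of_mem_ball M' y.2
      refine ⟨⟨ev M.s u.1, ev_mem_ball M (mem_redLe.1 u.2).1⟩, Subtype.ext ?_⟩
      rw [← hu]
      exact (e0 _ _).1 (hp _)
  refine ⟨Equiv.ofBijective f hf, fun x => ?_, fun x y i => ?_⟩
  · have := e0 (p x) ⟨[], mem_redLe.2 ⟨by simp, FreeGroup.IsReduced.nil⟩⟩
    rw [hp x] at this
    exact this
  · have := e1 (p x) (p y) i
    rw [hp x, hp y] at this
    exact this

theorem code_out_inj : Function.Injective
    (fun q : Quot (fun M M' : Marked d => BallIso n M M') => code n q.out) := by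
  intro q q' h
  rw [← q.out_eq, ← q'.out_eq]
  exact Quot.sound (ballIso_of_code h)

instance : Finite (Quot (fun M M' : Marked d => BallIso n M M')) :=
  Finite.of_injective _ code_out_inj

theorem fCount_le : fCount d n ≤ ((redLe d n).card + 1) ^ ((redLe d n).card * (d + 1)) := by
  classical
  have := Nat.card_le_card_of_injective _ (code_out_inj (d := d) (n := n))
  simpa [Nat.card_eq_fintype_card, fCount] using this

/-- comparison map -/
def gToF : Quot (fun M M' : {M : Marked d // Finite M.G} => BallIso n M.1 M'.1) →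
    Quot (fun M M' : Marked d => BallIso n M M') :=
  Quot.map Subtype.val fun _ _ h => h

theorem gToF_inj : Function.Injective (gToF (d := d) (n := n)) := by
  rintro ⟨M⟩ ⟨M'⟩ h
  exact Quot.sound (ballIso_equiv.eqvGen_iff.1 (Quot.eqvGen_exact h))

instance : Finite (Quot (fun M M' : {M : Marked d // Finite M.G} => BallIso n M.1 M'.1)) :=
  Finite.of_injective _ gToF_inj

theorem gCount_le_fCount : gCount d n ≤ fCount d n :=
  Nat.card_le_card_of_injective _ gToF_inj

/-- the marked group generated by a tuple -/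
def gen {H : Type} [Group H] (σ : Fin d → H) : Marked d where
  G := Subgroup.closure (Set.range σ)
  s i := ⟨σ i, Subgroup.subset_closure ⟨i, rfl⟩⟩
  gen := by
    have := Subgroup.closure_closure_coe_preimage (k := Set.range σ)
    rw [← this]
    congr 1
    ext ⟨x, hx⟩
    simp

theorem coe_ev_gen {H : Type} [Group H] (σ : Fin d → H) (w : List (Fin d × Bool)) :
    ((show Subgroup.closure (Set.range σ) from ev (gen σ).s w) : H) = ev σ w := by
  induction w with
  | nil => rfl
  | cons l w ih =>
    rw [ev_cons, ev_cons, ← ih]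
    cases l.2 <;> rfl

theorem ev_gen_iff {H : Type} [Group H] (σ : Fin d → H) (u v : List (Fin d × Bool)) :
    ev (gen σ).s u = ev (gen σ).s v ↔ ev σ u = ev σ v := by
  rw [← coe_ev_gen σ u, ← coe_ev_gen σ v]
  exact Subtype.ext_iff

theorem ev_replicate {α H : Type} [Group H] (s : α → H) (a : α) (j : ℕ) :
    ev s (List.replicate j (a, true)) = s a ^ j := by
  simp [ev]

theorem ev_invRev {α H : Type} [Group H] (s : α → H) (t : List (α × Bool)) :
    ev s (FreeGroup.invRev t) = (ev s t)⁻¹ := by
  rw [ev_eq_lift, ev_eq_lift, ← FreeGroup.inv_mk, map_inv]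

theorem two_pow_le_gCount {a b : Fin d} (hab : a ≠ b) {r l : ℕ} (W : Finset (List (Fin d × Bool)))
    (hW : ∀ w ∈ W, Good a b r l w) (hn : 2 * l + 2 * (2 * r + 1) ≤ n) :
    2 ^ W.card ≤ gCount d n := by
  classical
  obtain ⟨Q, _, _, s, hs, h1, h2, h3⟩ := exists_cosets hab r l
  have key : ∀ T : W.powerset, ∃ (H : Type) (_ : Group H) (_ : Finite H) (σ : Fin d → H),
      ∀ t ∈ W, (Commute (σ a ^ (2 * r + 1)) (ev σ t * σ a ^ (2 * r + 1) * (ev σ t)⁻¹) ↔
        t ∉ T.1) := by
    intro T
    exact exists_heis s a (2 * r + 1) (by omega) hs (W : Set _)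
      (fun t ht t' ht' => h1 t t' (hW t ht) (hW t' ht'))
      (fun t ht t' ht' => h2 t t' (hW t ht) (hW t' ht'))
      (fun t ht => h3 t (hW t ht)) (T.1 : Set _) (by
        exact_mod_cast Finset.mem_powerset.1 T.2)
  choose H hG hF σ hσ using key
  let x : List (Fin d × Bool) := List.replicate (2 * r + 1) (a, true)
  let u : List (Fin d × Bool) → List (Fin d × Bool) := fun t => x ++ (t ++ x ++ FreeGroup.invRev t)
  let v : List (Fin d × Bool) → List (Fin d × Bool) := fun t => (t ++ x ++ FreeGroup.invRev t) ++ x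
  have huv : ∀ T, ∀ t ∈ W, ev (gen (σ T)).s (u t) = ev (gen (σ T)).s (v t) ↔ t ∉ T.1 := by
    intro T t ht
    rw [ev_gen_iff, ← hσ T t ht]
    simp only [u, v, x, ev_append, ev_replicate, ev_invRev]
    rfl
  have hu : ∀ t ∈ W, (u t).length ≤ n := by
    intro t ht
    simp only [u, x, List.length_append, List.length_replicate, FreeGroup.invRev_length,
      (hW t ht).len]
    omega
  have hv : ∀ t ∈ W, (v t).length ≤ n := by
    intro t ht
    simp only [v, x, List.length_append, List.length_replicate, FreeGroup.invRev_length,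
      (hW t ht).len]
    omega
  let F : W.powerset → Quot (fun M M' : {M : Marked d // Finite M.G} => BallIso n M.1 M'.1) :=
    fun T => Quot.mk _ ⟨gen (σ T), by
      change Finite (Subgroup.closure (Set.range (σ T))); infer_instance⟩
  have hF' : Function.Injective F := by
    intro T T' h
    have hb := ballIso_equiv'.eqvGen_iff.1 (Quot.eqvGen_exact h)
    apply Subtype.ext
    ext t
    by_cases ht : t ∈ W
    · rw [← not_iff_not, ← huv T t ht, ← huv T' t ht]
      exact ⟨hb.ev_eq (hu t ht) (hv t ht), hb.symm.ev_eq (hu t ht) (hv t ht)⟩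
    · exact ⟨fun h => absurd (Finset.mem_powerset.1 T.2 h) ht,
        fun h => absurd (Finset.mem_powerset.1 T'.2 h) ht⟩
  have := Nat.card_le_card_of_injective _ hF'
  rwa [Nat.card_eq_fintype_card, Fintype.card_coe, Finset.card_powerset] at this

end Pool.Agent.MP_0de6ea_al
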