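import Mathlib.Algebra.Order.Star.Real
import Mathlib.Analysis.Complex.ExponentialBounds
import Pool.Agent.MP_0de6ea_al.Ball

namespace Pool.Agent.MP_0de6ea_al

open Filter Topology

theorem eventually_poly_le (K : ℝ) {q : ℝ} (hq : 1 < q) :
    ∀ᶠ n : ℕ in atTop, K * ((n : ℝ) + 1) ^ 2 ≤ q ^ n := by
  have h := tendsto_pow_const_div_const_pow_of_one_lt 2 hq
  have h4 : Tendsto (fun n : ℕ => (4 * |K|) * ((n : ℝ) ^ 2 / q ^ n)) atTop (𝓝 0) := by
    simpa using h.const_mul (4 * |K|)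
  filter_upwards [h4.eventually (gt_mem_nhds one_pos), eventually_ge_atTop 1] with n hn h1
  have hqn : 0 < q ^ n := by positivity
  have h1' : (1 : ℝ) ≤ n := by exact_mod_cast h1
  rw [← mul_div_assoc, div_lt_one hqn] at hn
  have a1 : K * ((n : ℝ) + 1) ^ 2 ≤ |K| * ((n : ℝ) + 1) ^ 2 :=
    mul_le_mul_of_nonneg_right (le_abs_self K) (by positivity)
  have a2 : |K| * ((n : ℝ) + 1) ^ 2 ≤ |K| * (4 * (n : ℝ) ^ 2) :=
    mul_le_mul_of_nonneg_left (by nlinarith) (abs_nonneg K)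
  nlinarith

theorem upper (d : ℕ) (hd : 2 ≤ d) (ε : ℝ) (hε : 0 < ε) :
    ∀ᶠ n : ℕ in atTop, (fCount d n : ℝ) ≤ Real.exp ((2 * d - 1 : ℝ) ^ ((1 + ε) * n)) := by
  have hd' : (2 : ℝ) ≤ d := by exact_mod_cast hd
  set lam : ℝ := 2 * d - 1 with hlam
  have hl1 : 1 < lam := by rw [hlam]; linarith
  have hq : 1 < lam ^ ε := Real.one_lt_rpow hl1 hε
  filter_upwards [eventually_poly_le ((d + 1) * (2 * d) * (2 * d + 1)) hq] with n hn
  set b := (redLe d n).card with hb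
  have hb1 : (b : ℝ) ≤ (n + 1) * (2 * d * lam ^ n) := by
    have := card_redLe (d := d) (n := n) (by omega)
    have h2 : ((2 * d - 1 : ℕ) : ℝ) = lam := by
      rw [Nat.cast_sub (by omega)]; push_cast; rfl
    rw [← h2]
    exact_mod_cast this
  have hlog : (b : ℝ) + 1 ≤ Real.exp ((2 * d + 1) * (n + 1)) := by
    have e1 : (n : ℝ) + 1 ≤ Real.exp n := Real.add_one_le_exp _
    have e2 : 2 * (d : ℝ) ≤ Real.exp (2 * d) := by linarith [Real.add_one_le_exp (2 * (d : ℝ))]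
    have e3 : lam ^ n ≤ Real.exp (2 * d * n) := by
      rw [mul_comm, Real.exp_nat_mul]
      exact pow_le_pow_left₀ (by linarith) (by linarith) _
    have e4 : (2 : ℝ) ≤ Real.exp 1 := by linarith [Real.add_one_le_exp (1 : ℝ)]
    have e5 : (b : ℝ) ≤ Real.exp n * (Real.exp (2 * d) * Real.exp (2 * d * n)) := by
      refine hb1.trans ?_
      gcongr
    have e6 : (1 : ℝ) ≤ Real.exp n * (Real.exp (2 * d) * Real.exp (2 * d * n)) := by
      rw [← Real.exp_add, ← Real.exp_add]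
      exact Real.one_le_exp (by positivity)
    have e7 : Real.exp ((2 * d + 1) * (n + 1)) =
        Real.exp 1 * (Real.exp n * (Real.exp (2 * d) * Real.exp (2 * d * n))) := by
      rw [← Real.exp_add, ← Real.exp_add, ← Real.exp_add]
      congr 1
      ring
    rw [e7]
    nlinarith
  have h1 : (fCount d n : ℝ) ≤ ((b : ℝ) + 1) ^ (b * (d + 1)) := by
    exact_mod_cast fCount_le (d := d) (n := n)
  refine h1.trans ((pow_le_pow_left₀ (by positivity) hlog _).trans ?_)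
  rw [← Real.exp_nat_mul, Real.exp_le_exp]
  have h2 : lam ^ ((1 + ε) * n) = lam ^ n * (lam ^ ε) ^ n := by
    rw [← mul_pow, ← Real.rpow_natCast, Real.rpow_mul (by linarith), Real.rpow_add (by linarith),
      Real.rpow_one]
  rw [h2]
  push_cast
  have hp : 0 < lam ^ n := by positivity
  calc (b : ℝ) * (d + 1) * ((2 * d + 1) * (n + 1))
      ≤ (n + 1) * (2 * d * lam ^ n) * (d + 1) * ((2 * d + 1) * (n + 1)) := by gcongr
    _ = lam ^ n * ((d + 1) * (2 * d) * (2 * d + 1) * ((n : ℝ) + 1) ^ 2) := by ring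
    _ ≤ _ := by gcongr

theorem lower (d : ℕ) (hd : 2 ≤ d) (ε : ℝ) (hε : 0 < ε) (hε1 : ε ≤ 1) :
    ∀ᶠ n : ℕ in atTop, Real.exp ((2 * d - 1 : ℝ) ^ ((1 / 2 - ε) * n)) ≤ gCount d n := by
  classical
  have hd' : (2 : ℝ) ≤ d := by exact_mod_cast hd
  set lam : ℝ := 2 * d - 1 with hlam
  have hl3 : 3 ≤ lam := by rw [hlam]; linarith
  have hl0 : 0 < lam := by linarith
  have hq : 1 < lam ^ (2 * ε) := Real.one_lt_rpow (by linarith) (by linarith)
  obtain ⟨L, hL⟩ := (eventually_poly_le (81 * lam ^ 8) hq).exists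
  let a : Fin d := ⟨0, by omega⟩
  let b : Fin d := ⟨1, by omega⟩
  have hab : a ≠ b := by simp [a, b, Fin.ext_iff]
  obtain ⟨S, hS, hc⟩ := exists_base_family (a := a) (b := b) hab L
  set l0 := 2 * (L + 4) with hl0'
  have hSc : lam ^ ((1 - ε) * l0) ≤ S.card := by
    have h2 : ((2 * Fintype.card (Fin d) - 1 : ℕ) : ℝ) = lam := by
      rw [Fintype.card_fin, Nat.cast_sub (by omega)]; push_cast; rfl
    have hc' : lam ^ (2 * L) ≤ S.card * (2 * (L : ℝ) + 9) ^ 2 := by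
      rw [← h2]; exact_mod_cast hc
    have e1 : (2 * (L : ℝ) + 9) ^ 2 * lam ^ 8 ≤ lam ^ (ε * l0) := by
      have : (lam ^ (2 * ε)) ^ L ≤ lam ^ (ε * l0) := by
        rw [← Real.rpow_natCast, ← Real.rpow_mul hl0.le]
        refine Real.rpow_le_rpow_of_exponent_le (by linarith) ?_
        rw [hl0']; push_cast; nlinarith
      refine le_trans ?_ (hL.trans this)
      have : (2 * (L : ℝ) + 9) ^ 2 ≤ 81 * ((L : ℝ) + 1) ^ 2 := by
        have : (0 : ℝ) ≤ L := Nat.cast_nonneg _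
        nlinarith
      calc _ ≤ 81 * ((L : ℝ) + 1) ^ 2 * lam ^ 8 := by gcongr
        _ = _ := by ring
    have e2 : lam ^ ((1 - ε) * l0) * lam ^ (ε * l0) = lam ^ (2 * L) * lam ^ 8 := by
      rw [← Real.rpow_add hl0, ← pow_add, ← Real.rpow_natCast]
      congr 1
      rw [hl0']; push_cast; ring
    have e3 : lam ^ ((1 - ε) * l0) * lam ^ (ε * l0) ≤ S.card * lam ^ (ε * l0) := by
      rw [e2]
      calc _ ≤ S.card * (2 * (L : ℝ) + 9) ^ 2 * lam ^ 8 := by gcongr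
        _ = S.card * ((2 * (L : ℝ) + 9) ^ 2 * lam ^ 8) := by ring
        _ ≤ _ := by gcongr
    exact le_of_mul_le_mul_right e3 (by positivity)
  have hT : Tendsto (fun n : ℕ => ε / 2 * (n : ℝ)) atTop atTop :=
    tendsto_natCast_atTop_atTop.const_mul_atTop (by positivity)
  filter_upwards [eventually_ge_atTop (6 * l0 + 2), hT.eventually_ge_atTop (3 * l0 + 2)]
    with n hn hn2
  have hl0pos : 0 < 2 * l0 := by omega
  obtain ⟨k, hk⟩ : ∃ k, (n - 2 * (2 * l0 + 1)) / (2 * l0) = k + 1 := by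
    refine Nat.exists_eq_succ_of_ne_zero (Nat.div_pos (by omega) hl0pos).ne'
  have hk1 : (k + 1) * (2 * l0) ≤ n - 2 * (2 * l0 + 1) := hk ▸ Nat.div_mul_le_self _ _
  have hk2 : n - 2 * (2 * l0 + 1) < (k + 1 + 1) * (2 * l0) := by
    rw [← hk, ← Nat.div_lt_iff_lt_mul hl0pos]; omega
  obtain ⟨W, hW, hWc⟩ := exists_pow_family S hS k
  have hg := two_pow_le_gCount (n := n) hab W hW (by
    have : 2 * ((k + 1) * l0) = (k + 1) * (2 * l0) := by ring
    omega)
  have hg' : (2 : ℝ) ^ W.card ≤ gCount d n := by exact_mod_cast hg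
  refine le_trans ?_ hg'
  rw [show (2 : ℝ) ^ W.card = Real.exp (W.card * Real.log 2) by
    rw [Real.exp_nat_mul, Real.exp_log two_pos], Real.exp_le_exp, hWc]
  push_cast
  have hk3 : (n : ℝ) ≤ 2 * ((k + 1) * l0) + 6 * l0 + 2 := by
    have : n ≤ 2 * ((k + 1) * l0) + 6 * l0 + 2 := by
      have : (k + 1 + 1) * (2 * l0) = 2 * ((k + 1) * l0) + 2 * l0 := by ring
      omega
    exact_mod_cast this
  have e1 : lam ^ ((1 / 2 - ε) * n + 1) ≤ (S.card : ℝ) ^ (k + 1) := by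
    refine le_trans ?_ (pow_le_pow_left₀ (by positivity) hSc _)
    rw [← Real.rpow_natCast, ← Real.rpow_mul hl0.le]
    refine Real.rpow_le_rpow_of_exponent_le (by linarith) ?_
    push_cast
    have h0 : (0 : ℝ) ≤ l0 := Nat.cast_nonneg _
    have h1 : (1 - ε) * ((n : ℝ) / 2 - 3 * l0 - 1) ≤ (1 - ε) * ((k + 1) * l0) :=
      mul_le_mul_of_nonneg_left (by linarith) (by linarith)
    nlinarith
  rw [Real.rpow_add hl0, Real.rpow_one] at e1
  have e2 : (1 : ℝ) / 2 ≤ Real.log 2 := by linarith [Real.log_two_gt_d9]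
  have e3 : 0 < lam ^ ((1 / 2 - ε) * n) := by positivity
  have e4 : lam ^ ((1 / 2 - ε) * n) * 3 ≤ lam ^ ((1 / 2 - ε) * n) * lam := by gcongr
  have e5 : (S.card : ℝ) ^ (k + 1) * (1 / 2) ≤ (S.card : ℝ) ^ (k + 1) * Real.log 2 := by gcongr
  linarith

end Pool.Agent.MP_0de6ea_al
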